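import Pool.Agent.MP_72d76c_lc.T11

/-!
# Deterministic sparse recovery with an L2/L1 guarantee, optimal rows and near-linear time

For every `1 ≤ k ≤ n / 2` there is a deterministic `L2/L1` scheme with an absolute constant `C`,
with `O(k log (n / k))` rows, whose decoder runs in time `O(n polylog n)` (unit-cost operations
on real numbers, counted by straight-line programs; see `ComputesIn` in `Defs.lean`). The map
`x ↦ A x` has the same running time.

The proof: (1) for every `s ≤ n` there is a matrix with `O(s log (2 n / s))` rows and the
restricted isometry property of order `s` such that `A` and its transpose are applied in time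
`O(n polylog n)` (`T10_rip`); it is obtained by flattening all the vectors of a net with few
rounds of small random block rotations composed with signed Walsh-Hadamard transforms, the
contraction coming from a weak uncertainty principle, and then summing coordinates with random
signs over groups. (2) The decoder is a median phase on a lossless expander (which brings the
error within a factor `n ^ O(log k)` of the best) followed by `polylog n` rounds of iterative
hard thresholding, with sorting networks for the thresholds and the medians.
-/

namespace Pool.Agent.Results.MP_72d76c_lc.NearLinearL2L1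

open Matrix Pool.Agent.MP_72d76c_lc

theorem result : ∃ (C : ℝ) (a : ℕ), 0 < C ∧ ∀ n k : ℕ, 1 ≤ k → 2 * k ≤ n →
    ∃ (m T : ℕ) (A : Matrix (Fin m) (Fin n) ℝ) (D : (Fin m → ℝ) → (Fin n → ℝ)),
      (m : ℝ) ≤ C * k * Real.log (n / k) ∧
      (T : ℝ) ≤ C * n * Real.log n ^ a ∧
      ComputesIn T D ∧ ComputesIn T (fun x => A *ᵥ x) ∧
      ∀ x : Fin n → ℝ, Real.sqrt (nsq (D (A *ᵥ x) - x)) ≤ C / Real.sqrt k * sigma k x :=
  T11_strong

end Pool.Agent.Results.MP_72d76c_lc.NearLinearL2L1
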